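import Pool.Agent.Lib.MP_7cdc3e_gt.C.T1.Map

/-!
# MP_7cdc3e_gt, C/T1: even zero sets are mapped to convex sets (T1.3, FILL)
-/

set_option autoImplicit false

open HoloConj Pool.Agent.Lib.SingHom Module AS AS.R3

namespace TightRP

namespace T1

open C3 (CSys W up pj Sp Cn Zr)

variable {F : Type} [Field F] {ev : W →ₗ[ℝ] (RP3 → ℝ)}

/-- the image of an even zero set is a face, and `f` is a bijection over it -/
theorem cell_of_rk3 (h : CSys F ev) {f : RP3 → Q.En 9} (hf : Continuous f) (hLI : LocInj f)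
    (hSub : Substantial f)
    (hfun : ∀ (l : Q.En 9 →ₗ[ℝ] ℝ) (c : ℝ), ∃ k : W, ∀ x, ev k x = l (f x) + c)
    {g : W} (hg : C3.Rk3 ev g) {l : Q.En 9 →ₗ[ℝ] ℝ} {c : ℝ} (hlc : ∀ x, ev g x = l (f x) + c) :
    Q.Fac f {p | p ∈ Q.Kf f ∧ l p + c = 0} ∧ Q.Cell f {p | p ∈ Q.Kf f ∧ l p + c = 0} := by
  have := C3.cptRP3
  -- tightness
  have hH : ∀ (l : Q.En 9 →ₗ[ℝ] ℝ) (c : ℝ), ∀ n ≤ 2, HInj F (Q.Hs f l c) n := by
    intro l c n hn
    obtain ⟨k, hk⟩ := hfun l (-c)
    have h1 : Q.Hs f l c = {x | 0 < ev k x} := by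
      ext x
      show c < l (f x) ↔ 0 < ev k x
      rw [hk x]
      constructor
      · intro h2
        linarith
      · intro h2
        linarith
    rw [h1]
    rcases Nat.lt_or_ge n 2 with h2 | h2
    · exact h.tight k n (by omega)
    · have h3 : n = 2 := by omega
      rw [h3]
      exact h.tight2 k
  have hT : TightUpTo 2 F f := fun l c _ n hn => hH l c n hn
  obtain ⟨hgC, hgne, hgE⟩ := hg
  -- the face
  set Φ : Set (Q.En 9) := {p | p ∈ Q.Kf f ∧ l p + c = 0} with hΦ
  have hpos : ∀ p ∈ Q.Kf f, 0 ≤ l p + c := by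
    have h1 : Convex ℝ {p : Q.En 9 | 0 ≤ l p + c} := by
      intro p hp q hq a b ha hb hab
      show 0 ≤ l (a • p + b • q) + c
      have hp' : 0 ≤ l p + c := hp
      have hq' : 0 ≤ l q + c := hq
      rw [map_add, map_smul, map_smul, smul_eq_mul, smul_eq_mul]
      have h2 : a * l p + b * l q + c = a * (l p + c) + b * (l q + c) := by
        have : c = (a + b) * c := by rw [hab, one_mul]
        linear_combination this
      rw [h2]
      positivity
    have h2 : Set.range f ⊆ {p : Q.En 9 | 0 ≤ l p + c} := by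
      rintro _ ⟨z, rfl⟩
      show 0 ≤ l (f z) + c
      rw [← hlc z]
      exact hgC z
    exact fun p hp => convexHull_min h2 h1 hp
  have hlcont : Continuous l := l.continuous_of_finiteDimensional
  have hF : Q.Fac f Φ := by
    refine ⟨?_, ?_, ?_, ?_⟩
    · refine ⟨fun p hp => hp.1, ?_⟩
      intro p hp q hq z hz hzo
      obtain ⟨a, b, ha, hb, hab, rfl⟩ := hzo
      have h1 := hpos p hp
      have h2 := hpos q hq
      have h3 : l (a • p + b • q) + c = 0 := hz.2
      rw [map_add, map_smul, map_smul, smul_eq_mul, smul_eq_mul] at h3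
      have h4 : a * (l p + c) + b * (l q + c) = 0 := by
        have : c = (a + b) * c := by rw [hab, one_mul]
        linear_combination h3 - this
      have h5 : 0 ≤ a * (l p + c) := mul_nonneg ha.le h1
      have h6 : 0 ≤ b * (l q + c) := mul_nonneg hb.le h2
      have h7 : a * (l p + c) = 0 := by linarith
      exact ⟨hp, (mul_eq_zero.1 h7).resolve_left ha.ne'⟩
    · intro p hp q hq a b ha hb hab
      refine ⟨(convex_convexHull ℝ _) hp.1 hq.1 ha hb hab, ?_⟩
      rw [map_add, map_smul, map_smul, smul_eq_mul, smul_eq_mul]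
      have hp' : l p + c = 0 := hp.2
      have hq' : l q + c = 0 := hq.2
      have : c = (a + b) * c := by rw [hab, one_mul]
      linear_combination a * hp' + b * hq' + this
    · have h1 : IsClosed (Q.Kf f) :=
        (Q.qCvh 9 _ (isCompact_range hf)).isClosed
      exact h1.inter (isClosed_eq (hlcont.add continuous_const) continuous_const)
    · obtain ⟨z, hz⟩ := hgne
      refine ⟨f z, subset_convexHull ℝ _ ⟨z, rfl⟩, ?_⟩
      rw [← hlc z]
      exact hz
  have hEv : Q.Ev F f 1 Φ := by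
    obtain ⟨c₀, hc₀, hE⟩ := even_nbhd_zr h hgC hgE
    refine ⟨-l, c - c₀, fun p hp => ?_, fun z => ?_⟩
    · have h1 : l p + c = 0 := hp.2
      show c - c₀ < -(l p)
      linarith
    · have h1 : Q.Hs f (-l) (c - c₀) = {x | ev g x < c₀} := by
        ext x
        show c - c₀ < -(l (f x)) ↔ ev g x < c₀
        rw [hlc x]
        constructor
        · intro h2
          linarith
        · intro h2
          linarith
      have h2 : C3.Even (Q.Hs f (-l) (c - c₀)) := by
        rw [h1]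
        exact hE.mono fun x (hx : ev g x < c₀) => show ev g x ≤ c₀ from hx.le
      have h3 : IsOpen (Q.Hs f (-l) (c - c₀)) := by
        rw [h1]
        exact isOpen_lt (h.cont g) continuous_const
      have h4 : IsPreconnected (Q.Hs f (-l) (c - c₀)) := by
        rw [h1]
        exact (T0.pre_c T0.oxPre h g c₀).2.1
      have h5 := (T0.oxH1 F h.char2 _ h3 h4 (hH _ _ 1 (by omega))).1 h2
      have h6 : z = 0 := Subsingleton.elim _ _
      rw [h6, map_zero]
  exact ⟨hF, (Q.aFilE F 9 f (by norm_num) hf hLI hSub hT Φ hF hEv).1⟩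

theorem fill : C3.FillStmt := by
  intro F _ ev h g hg x hx y hy s t hs ht hst
  obtain ⟨f, hf, hLI, hSub, hfun, hall⟩ := exists_map h
  obtain ⟨l, c, hlc⟩ := hall g
  obtain ⟨hF, hcell⟩ := cell_of_rk3 h hf hLI hSub hfun hg hlc
  have hxΦ : f x ∈ {p | p ∈ Q.Kf f ∧ l p + c = 0} :=
    ⟨subset_convexHull ℝ _ ⟨x, rfl⟩, by rw [← hlc x]; exact hx⟩
  have hyΦ : f y ∈ {p | p ∈ Q.Kf f ∧ l p + c = 0} :=
    ⟨subset_convexHull ℝ _ ⟨y, rfl⟩, by rw [← hlc y]; exact hy⟩
  have hp : s • f x + t • f y ∈ {p | p ∈ Q.Kf f ∧ l p + c = 0} := hF.cvx hxΦ hyΦ hs ht hst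
  obtain ⟨z, hz, -⟩ := hcell _ hp
  refine ⟨z, ?_, fun k => ?_⟩
  · show ev g z = 0
    rw [hlc z, hz]
    exact hp.2
  · obtain ⟨l', c', hk⟩ := hall k
    rw [hk z, hk x, hk y, hz, map_add, map_smul, map_smul, smul_eq_mul, smul_eq_mul]
    have : c' = (s + t) * c' := by rw [hst, one_mul]
    linear_combination this

/-- `f` is injective on even zero sets, in the form: if the system does not separate `y` and `z`, and
`z` is a zero of a function of rank three, then `y = z` -/
theorem sep_of_rk3 (h : CSys F ev) {g : W} (hg : C3.Rk3 ev g) {y z : RP3} (hz : z ∈ Zr ev g)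
    (hyz : ∀ k, ev k y = ev k z) : y = z := by
  obtain ⟨f, hf, hLI, hSub, hfun, hall⟩ := exists_map h
  obtain ⟨l, c, hlc⟩ := hall g
  obtain ⟨hF, hcell⟩ := cell_of_rk3 h hf hLI hSub hfun hg hlc
  have hfyz : f y = f z := by
    ext i
    obtain ⟨k, hk⟩ := hfun (EuclideanSpace.proj i : Q.En 9 →L[ℝ] ℝ).toLinearMap 0
    have h1 := hk y
    have h2 := hk z
    have h3 := hyz k
    rw [h1, h2] at h3
    have h4 : (f y) i + 0 = (f z) i + 0 := h3
    linarith
  have hzΦ : f z ∈ {p | p ∈ Q.Kf f ∧ l p + c = 0} :=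
    ⟨subset_convexHull ℝ _ ⟨z, rfl⟩, by rw [← hlc z]; exact hz⟩
  obtain ⟨w, -, hw⟩ := hcell _ hzΦ
  rw [hw y hfyz, hw z rfl]

theorem sep_of_s0 (h0 : C3.S0Stmt) : C3.SepStmt := by
  intro F _ ev h y z hyz
  obtain ⟨g, hg, hE⟩ := h0 F ev h z
  exact sep_of_rk3 h ⟨hg.1, ⟨z, hg.2⟩, hE⟩ hg.2 hyz

end T1

end TightRP
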