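import Pool.Agent.Lib.MP_7cdc3e_gt.C.T1.Map

/-!
# MP_7cdc3e_gt, C/T1: connectedness from `Gen`, existence of a function of rank three (T1.5)
-/

set_option autoImplicit false

open HoloConj Pool.Agent.Lib.SingHom Module AS AS.R3

namespace TightRP

namespace T1

open C3 (CSys W up pj Sp Cn Zr)

/-- a closed set whose classes of degree zero are `0` and `1` is preconnected -/
theorem pre_of_gen {A : Set RP3} (hA : IsClosed A) (hG : Gen (up A)) : IsPreconnected A := by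
  classical
  rw [isPreconnected_closed_iff]
  intro t t' ht ht' hcov hne hne'
  by_contra hcon
  rw [Set.not_nonempty_iff_eq_empty] at hcon
  have hB : IsCompact (up (A ∩ t)) := C3.up_compact (hA.inter ht)
  have hB' : IsClosed (up (A ∩ t')) := C3.up_closed (hA.inter ht')
  have hd : Disjoint (up (A ∩ t)) (up (A ∩ t')) := by
    rw [Set.disjoint_left]
    rintro x ⟨hx, h1, h2⟩ ⟨_, _, h3⟩
    have h4 : pj x ∈ A ∩ (t ∩ t') := ⟨h1, h2, h3⟩
    rw [hcon] at h4
    exact h4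
  obtain ⟨δ, hδ, hdis⟩ := hd.exists_thickenings hB hB'
  let φ : List C3.E4 → ZMod 2 := fun l =>
    if ∃ x ∈ up (A ∩ t), l = [x] then 1 else 0
  have hφ1 : ∀ x ∈ up (A ∩ t), φ [x] = 1 := fun x hx => if_pos ⟨x, hx, rfl⟩
  have hφ0 : ∀ x, x ∉ up (A ∩ t) → φ [x] = 0 := by
    intro x hx
    refine if_neg ?_
    rintro ⟨y, hy, h1⟩
    rw [List.singleton_inj] at h1
    exact hx (h1 ▸ hy)
  have hiv : Iv (Pm C3.E4) φ := by
    rw [iv_Pm]
    intro l
    have h1 : (∃ x ∈ up (A ∩ t), (l.map fun x => -x) = [x]) ↔ ∃ x ∈ up (A ∩ t), l = [x] := by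
      constructor
      · rintro ⟨x, hx, h2⟩
        refine ⟨-x, C3.neg_mem_up hx, ?_⟩
        have h3 := congrArg (List.map fun x : C3.E4 => -x) h2
        rw [List.map_map] at h3
        simpa using h3
      · rintro ⟨x, hx, rfl⟩
        exact ⟨-x, C3.neg_mem_up hx, rfl⟩
    show (if _ then (1 : ZMod 2) else 0) = if _ then 1 else 0
    by_cases h2 : ∃ x ∈ up (A ∩ t), l = [x]
    · rw [if_pos h2, if_pos (h1.2 h2)]
    · rw [if_neg h2, if_neg fun h3 => h2 (h1.1 h3)]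
  have hcase : ∀ x ∈ up A, x ∈ up (A ∩ t) ∨ x ∈ up (A ∩ t') := by
    intro x hx
    rcases hcov hx.2 with h1 | h1
    · exact Or.inl ⟨hx.1, hx.2, h1⟩
    · exact Or.inr ⟨hx.1, hx.2, h1⟩
  have hno : ∀ x ∈ up (A ∩ t'), x ∉ up (A ∩ t) := fun x hx h1 => Set.disjoint_left.1 hd h1 hx
  have hfar : ∀ x ∈ up (A ∩ t), ∀ y ∈ up (A ∩ t'), δ ≤ dist x y := by
    intro x hx y hy
    by_contra h1
    push Not at h1
    refine Set.disjoint_left.1 hdis (Metric.mem_thickening_iff.2 ⟨x, hx, ?_⟩)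
      (Metric.self_subset_thickening hδ _ hy)
    rw [dist_comm]
    exact h1
  have hcyc : φ ∈ Cyc (Pm C3.E4) ∅ 0 (up A) := by
    refine ⟨hiv, Z0.empty 0 (Set.inter_empty _) _, ⟨δ, hδ, fun l hl hs => ?_⟩⟩
    obtain ⟨x, y, rfl⟩ := List.length_eq_two.1 hl
    have h1 : dd φ [x, y] = φ [y] + φ [x] := by simp [dd]
    have hx := hs.1 x (by simp)
    have hy := hs.1 y (by simp)
    have hxy : dist x y < δ := hs.2 x (by simp) y (by simp)
    have hyx : dist y x < δ := hs.2 y (by simp) x (by simp)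
    rw [h1]
    rcases hcase x hx with h2 | h2 <;> rcases hcase y hy with h3 | h3
    · rw [hφ1 x h2, hφ1 y h3]
      decide
    · exact absurd hxy (not_lt.2 (hfar x h2 y h3))
    · exact absurd hyx (not_lt.2 (hfar y h3 x h2))
    · rw [hφ0 x (hno x h2), hφ0 y (hno y h3), add_zero]
  rcases hG (C3.zero_notMem_up A) 0 (cl φ hcyc) with h1 | h1
  · rw [cl_eq_zero, mem_Bnd_zero] at h1
    obtain ⟨ε, hε, h2⟩ := h1.2
    obtain ⟨z, hzA, hzt⟩ := hne
    obtain ⟨x, hx, rfl⟩ := C3.pj_surj z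
    have h3 := h2 [x] rfl ⟨fun y hy => by
      rw [List.mem_singleton] at hy
      rw [hy]
      exact ⟨hx, hzA⟩, fun y hy w hw => by
      rw [List.mem_singleton] at hy hw
      rw [hy, hw, dist_self]
      exact hε⟩
    rw [hφ1 x ⟨hx, hzA, hzt⟩] at h3
    exact one_ne_zero h3
  · unfold ap at h1
    rw [cl_eq_cl, mem_Bnd_zero] at h1
    obtain ⟨ε, hε, h2⟩ := h1.2
    obtain ⟨z, hzA, hzt⟩ := hne'
    obtain ⟨x, hx, rfl⟩ := C3.pj_surj z
    have h3 := h2 [x] rfl ⟨fun y hy => by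
      rw [List.mem_singleton] at hy
      rw [hy]
      exact ⟨hx, hzA⟩, fun y hy w hw => by
      rw [List.mem_singleton] at hy hw
      rw [hy, hw, dist_self]
      exact hε⟩
    have h4 : x ∉ up (A ∩ t) := hno x ⟨hx, hzA, hzt⟩
    have h5 : (0 : C3.E4) ∉ [x] := by
      intro h6
      rw [List.mem_singleton] at h6
      exact C3.ne_zero_of_mem_Sp hx h6.symm
    rw [Pi.add_apply, hφ0 x h4, apc_pos (k := 0) rfl h5, zero_add] at h3
    have h6 : (pr [x] : ZMod 2) = 1 := rfl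
    rw [h6] at h3
    exact one_ne_zero h3

variable {F : Type} [Field F] {ev : W →ₗ[ℝ] (RP3 → ℝ)}

theorem even_singleton (z : RP3) : C3.Even {z} := by
  obtain ⟨x, hx, rfl⟩ := C3.pj_surj z
  refine ⟨Metric.ball x 1, Metric.isOpen_ball, fun y hy => ?_⟩
  have hy1 : pj y = pj x := hy.2
  have hn : dist x (-x) = 2 := by
    rw [dist_eq_norm, sub_neg_eq_add, ← two_smul ℝ x, norm_smul]
    rw [mem_sphere_zero_iff_norm.1 hx]
    norm_num
  rcases (C3.pj_eq_iff hy.1 hx).1 hy1 with h1 | h1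
  · rw [h1]
    constructor
    · intro _ h2
      rw [Metric.mem_ball, dist_comm, hn] at h2
      norm_num at h2
    · intro _
      exact Metric.mem_ball_self one_pos
  · rw [h1, neg_neg]
    constructor
    · intro h2
      rw [Metric.mem_ball, dist_comm, hn] at h2
      norm_num at h2
    · intro h2
      exact (h2 (Metric.mem_ball_self one_pos)).elim

/-- T1.5: there is a function of rank three, with exactly one zero -/
theorem exists_rk3 (h : CSys F ev) : ∃ g : W, g ≠ 0 ∧ C3.Rk3 ev g ∧ ∃ z, Zr ev g = {z} := by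
  have := C3.cptRP3
  obtain ⟨f, hf, hLI, hS, hfun, -⟩ := exists_map h
  obtain ⟨z₀, -, hmax⟩ := isCompact_univ.exists_isMaxOn (⟨pj 0, trivial⟩ :
    (Set.univ : Set RP3).Nonempty) hf.norm.continuousOn
  have hmax' : ∀ x, ‖f x‖ ≤ ‖f z₀‖ := fun x => hmax (Set.mem_univ x)
  set p := f z₀ with hp
  obtain ⟨g, hg⟩ := hfun (-(innerₛₗ ℝ p)) (‖p‖ ^ 2)
  have hg' : ∀ x, ev g x = ‖p‖ ^ 2 - inner ℝ p (f x) := by
    intro x
    rw [hg x]
    show -(inner ℝ p (f x)) + ‖p‖ ^ 2 = _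
    ring
  have hCn : g ∈ Cn ev := by
    intro x
    rw [hg' x]
    have h1 := real_inner_le_norm p (f x)
    have h2 : ‖p‖ * ‖f x‖ ≤ ‖p‖ * ‖p‖ := mul_le_mul_of_nonneg_left (hmax' x) (norm_nonneg _)
    have h3 : ‖p‖ ^ 2 = ‖p‖ * ‖p‖ := sq _
    linarith
  have hz : ∀ x, x ∈ Zr ev g → f x = p := by
    intro x hx
    have h1 : ‖p‖ ^ 2 - inner ℝ p (f x) = 0 := by
      rw [← hg' x]
      exact hx
    have h2 : ‖p - f x‖ ^ 2 ≤ 0 := by
      rw [@norm_sub_sq_real]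
      have h3 : ‖f x‖ ^ 2 ≤ ‖p‖ ^ 2 := pow_le_pow_left₀ (norm_nonneg _) (hmax' x) 2
      linarith
    have h3 : ‖p - f x‖ = 0 := by
      have := norm_nonneg (p - f x)
      nlinarith
    exact (sub_eq_zero.1 (norm_eq_zero.1 h3)).symm
  have hz₀ : z₀ ∈ Zr ev g := by
    show ev g z₀ = 0
    rw [hg' z₀, ← hp, real_inner_self_eq_norm_sq, sub_self]
  have hone : Zr ev g = {z₀} := by
    apply Set.eq_singleton_iff_unique_mem.2
    refine ⟨hz₀, fun y hy => ?_⟩
    by_contra hyz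
    obtain ⟨U, hU, hinj⟩ := hLI z₀
    obtain ⟨V, hVU, hV, hzV⟩ := mem_nhds_iff.1 hU
    have hpre := pre_of_gen (closed_zr h g) (gen_zr h hCn)
    have := rTop.1
    obtain ⟨w, hw, hwV, hwz⟩ := hpre V {z₀}ᶜ hV isOpen_compl_singleton (by
      intro w hw
      by_cases h1 : w = z₀
      · rw [h1]
        exact Or.inl hzV
      · exact Or.inr h1) ⟨z₀, hz₀, hzV⟩ ⟨y, hy, hyz⟩
    exact hwz (hinj (hVU hwV) (hVU hzV) (by rw [hz w hw]))
  have hg0 : g ≠ 0 := by
    rintro rfl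
    have h1 : ∀ x, f x = p := by
      intro x
      apply hz
      show ev 0 x = 0
      rw [map_zero]
      rfl
    have h2 := hS (innerₛₗ ℝ (EuclideanSpace.single 0 (1 : ℝ) : Q.En 9))
      (inner ℝ (EuclideanSpace.single 0 (1 : ℝ) : Q.En 9) p) (fun x => by rw [h1 x]; rfl)
    have h3 := LinearMap.congr_fun h2 (EuclideanSpace.single 0 (1 : ℝ))
    have h4 : inner ℝ (EuclideanSpace.single 0 (1 : ℝ) : Q.En 9) (EuclideanSpace.single 0 1) = (0 : ℝ) := h3
    simp at h4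
  refine ⟨g, hg0, ⟨hCn, ⟨z₀, hz₀⟩, ?_⟩, z₀, hone⟩
  rw [hone]
  exact even_singleton z₀

end T1

end TightRP
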