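import Pool.Agent.Lib.MP_7cdc3e_gt.C.T1.Cvx
import Pool.Agent.Lib.MP_7cdc3e_gt.C.T1.Fill
import Pool.Agent.Lib.MP_7cdc3e_gt.C.T1.Ex
import Pool.Agent.Lib.MP_7cdc3e_gt.C.T12.Defs

/-!
# MP_7cdc3e_gt, C/T1: the facts from T1 used in T2 (`NmStmt`, `TFStmt`)
-/

set_option autoImplicit false

open HoloConj Pool.Agent.Lib.SingHom Module AS AS.R3

namespace TightRP

namespace T1

open C3 (CSys W up pj Sp Cn Zr IsFace RI Fc Nf Xz dm Nm PF)

variable {F : Type} [Field F] {ev : W →ₗ[ℝ] (RP3 → ℝ)}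

/-- there are finitely many points whose evaluations add up to a positive functional -/
theorem okNm : C3.NmStmt := by
  intro F _ ev h
  have htop : Submodule.span ℝ (Set.range (C3.pt ev)) = ⊤ := by
    rw [← Submodule.orthogonal_eq_bot_iff, Submodule.eq_bot_iff]
    intro g hg
    apply h.inj
    rw [map_zero]
    funext z
    show ev g z = 0
    rw [C3.ev_pt]
    exact (Submodule.mem_orthogonal _ g).1 hg _ (Submodule.subset_span ⟨z, rfl⟩)
  obtain ⟨b, hb, hspan⟩ := (Submodule.fg_span_iff_fg_span_finset_subset (R := ℝ)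
    (Set.range (C3.pt ev))).1 (IsNoetherian.noetherian _)
  refine ⟨∑ v ∈ b, innerₛₗ ℝ v, fun g hg hg0 => ?_⟩
  have h1 : (∑ v ∈ b, innerₛₗ ℝ v) g = ∑ v ∈ b, inner ℝ v g := by
    rw [LinearMap.sum_apply]
    rfl
  rw [h1]
  have h2 : ∀ v ∈ b, 0 ≤ inner ℝ v g := by
    intro v hv
    obtain ⟨z, rfl⟩ := hb hv
    rw [← C3.ev_pt]
    exact hg z
  refine lt_of_le_of_ne (Finset.sum_nonneg h2) fun h3 => ?_
  apply hg0
  have h4 := (Finset.sum_eq_zero_iff_of_nonneg h2).1 h3.symm
  have h5 : ∀ x ∈ Submodule.span ℝ (b : Set W), inner ℝ x g = (0 : ℝ) := by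
    intro x hx
    induction hx using Submodule.span_induction with
    | mem x hx => exact h4 x hx
    | zero => exact inner_zero_left _
    | add x y _ _ hx hy => rw [inner_add_left, hx, hy, add_zero]
    | smul c x _ hx => rw [inner_smul_left, hx, mul_zero]
  have h6 := h5 g (by rw [← hspan, htop]; trivial)
  exact inner_self_eq_zero.1 h6

/-- normalized parts of closed cones are compact -/
theorem cpt_PF (h : CSys F ev) {lam : W →ₗ[ℝ] ℝ} (hl : Nm ev lam) :
    IsCompact (PF lam (Cn ev)) := by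
  have hcont : Continuous lam := lam.continuous_of_finiteDimensional
  have hcl : IsClosed (PF lam (Cn ev)) := (closed_cn h).inter (isClosed_eq hcont continuous_const)
  refine Metric.isCompact_of_isClosed_isBounded hcl ?_
  have hK : IsCompact (Cn ev ∩ Metric.sphere (0 : W) 1) :=
    (isCompact_sphere (0 : W) 1).inter_left (closed_cn h)
  rcases (Cn ev ∩ Metric.sphere (0 : W) 1).eq_empty_or_nonempty with he | hne
  · refine Bornology.IsBounded.subset (Bornology.isBounded_singleton (x := (0 : W))) ?_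
    rintro g ⟨hg, hg1⟩
    by_contra hg0
    have h1 : (‖g‖⁻¹ : ℝ) • g ∈ Cn ev ∩ Metric.sphere (0 : W) 1 := by
      refine ⟨isFace_Cn.smul _ (by positivity) g hg, ?_⟩
      rw [mem_sphere_zero_iff_norm, norm_smul, norm_inv, norm_norm]
      exact inv_mul_cancel₀ (norm_ne_zero_iff.2 hg0)
    rw [he] at h1
    exact h1
  · obtain ⟨m, hm, hmin⟩ := hK.exists_isMinOn hne hcont.continuousOn
    have hm0 : m ≠ 0 := by
      intro h0
      have h1 := hm.2
      rw [h0, mem_sphere_zero_iff_norm, norm_zero] at h1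
      exact zero_ne_one h1
    have hpos : 0 < lam m := hl m hm.1 hm0
    rw [isBounded_iff_forall_norm_le]
    refine ⟨(lam m)⁻¹, ?_⟩
    rintro g ⟨hg, hg1⟩
    rcases eq_or_ne g 0 with hg0 | hg0
    · rw [hg0, norm_zero]
      positivity
    · have hn : 0 < ‖g‖ := norm_pos_iff.2 hg0
      have h1 : (‖g‖⁻¹ : ℝ) • g ∈ Cn ev ∩ Metric.sphere (0 : W) 1 := by
        refine ⟨isFace_Cn.smul _ (by positivity) g hg, ?_⟩
        rw [mem_sphere_zero_iff_norm, norm_smul, norm_inv, norm_norm]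
        exact inv_mul_cancel₀ hn.ne'
      have h2 : lam m ≤ lam ((‖g‖⁻¹ : ℝ) • g) := hmin h1
      rw [map_smul, smul_eq_mul, hg1, mul_one] at h2
      rw [le_inv_comm₀ hn hpos]
      exact h2

theorem ne_of_au {k : ℕ} {A : Set RP3} (h : au k A ≠ 0) : A.Nonempty := by
  by_contra h4
  apply h
  apply H_empty
  rw [Set.not_nonempty_iff_eq_empty.1 h4, C3.up_empty]

theorem rp_bas4 : Bas4 (Pm C3.E4) Sp (ap 1 Sp C3.zero_notMem_Sp) (ap 2 Sp C3.zero_notMem_Sp)
    (ap 3 Sp C3.zero_notMem_Sp) := by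
  obtain ⟨h3, hG⟩ := AS.R3.okRP
  have hp : ∀ i ≤ 3, ap i Sp C3.zero_notMem_Sp ≠ 0 := by
    intro i hi h0
    apply h3
    have h1 := T0.oxPow Set.univ i 3 hi
    have h2 : ∀ (X : Set C3.E4) (hX : (0 : C3.E4) ∉ X), X = Sp → (ap i X hX = 0 → ap 3 X hX = 0) →
        ap 3 Sp C3.zero_notMem_Sp = 0 := by
      rintro X hX rfl h5
      exact h5 h0
    exact h2 _ _ C3.up_univ h1
  have h0 : ∀ x : H (Pm C3.E4) ∅ 0 Sp, x = 0 ∨ x = one (Pm C3.E4) Sp := by
    intro x
    rcases hG C3.zero_notMem_Sp 0 x with h | h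
    · exact Or.inl h
    · rw [ap_zero_eq_one] at h
      exact Or.inr h
  refine ⟨h0, ?_, fun x => hG _ 1 x, hp 1 (by omega), fun x => hG _ 2 x, hp 2 (by omega),
    fun x => hG _ 3 x, h3, fun n x => ?_⟩
  · have h1 := hp 0 (by omega)
    rw [ap_zero_eq_one] at h1
    exact h1
  · have h1 := T0.oxTop Set.univ (n + 4) isClosed_univ (Or.inl (by omega))
    rw [C3.up_univ] at h1
    exact h1 x

/-- the complement of a maximum value: a function of rank three -/
theorem max_rk3 (h : CSys F ev) {g : W} (hg : g ∈ C3.T2set ev) {z : RP3}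
    (hz : ∀ y, ev g y ≤ ev g z) : ∃ k ∈ Nf ev z, C3.Rk3 ev k ∧
      ∀ x, ev k x = ev g z - ev g x := by
  obtain ⟨u, hu⟩ := h.one
  have hk : ∀ x, ev ((ev g z) • u - g) x = ev g z - ev g x := by
    intro x
    rw [ev_sub', ev_smul', hu, mul_one]
  have hC : (ev g z) • u - g ∈ Cn ev := by
    intro x
    rw [hk x]
    have := hz x
    linarith
  have hzz : ev ((ev g z) • u - g) z = 0 := by
    rw [hk z, sub_self]
  have hpos : 0 < ev g z := by
    by_contra h1
    apply hg.2.1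
    apply h.inj
    rw [map_zero]
    funext x
    have h2 := hz x
    have h3 := hg.1 x
    show ev g x = 0
    linarith
  refine ⟨_, ⟨hC, hzz⟩, ⟨hC, ⟨z, hzz⟩, hg.2.2.2.mono fun x hx => ?_⟩, hk⟩
  have h1 : ev ((ev g z) • u - g) x = 0 := hx
  rw [hk x] at h1
  show 0 < ev g x
  linarith

theorem okTF (hJ : C3.J3Stmt) : C3.TFStmt := by
  intro F _ ev lam h hl
  have hcz : ∀ g, IsClosed (Zr ev g) := fun g => closed_zr h g
  exact {
    sys := h
    nm := hl
    cpt := cpt_PF h hl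
    top := fun A k hA hk x => T0.oxTop A k hA hk x
    rp := rp_bas4
    pow := T0.oxPow
    evn := T0.oxOne
    z2 := fun g hg h1 h2 => bas2 (gen_zr h hg) (hcz g) (ne_of_au h1)
      ((au_one_iff (hcz g)).1 h1) (not_not.1 h2)
    z3 := fun g hg h0 h2 => bas3 (gen_zr h hg) (hcz g) (ne_of_au h2) (zr_ne_univ h h0) h2
    t2 := fun g => mem_T2set_iff h
    r3 := fun g hg hn => by
      have h1 := au_one_iff (hcz g)
      constructor
      · intro h2 h3
        exact h1.1 h3 h2.2.2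
      · intro h2
        exact ⟨hg, hn, not_not.1 fun h3 => h2 (h1.2 h3)⟩
    mono := fun g k i hgk h1 => au_ne_mono hgk h1
    clo := fun i => closed_type h i
    ve := fun g hg e he hn => acy_ge h hg he hn
    ue := fun g hg e he hn => bas3_le h hg he hn
    mx := fun g hg z hz => max_rk3 h hg hz
    fcl := fun Φ hΦ => face_closed h hΦ
    fri := fun Φ hΦ => exists_ri hΦ
    fxz := fun Φ g hΦ hg => (zr_eq_xz hΦ hg).symm
    fdm := fun Φ Ψ hΦ hΨ h1 h2 => dm_lt hΦ hΨ h1 h2
    fnz := fun Φ z hΦ => isFace_inter_Nf hΦ z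
    fnf := fun z => isFace_Nf' z
    ffc := fun g hg => fc_face hg
    ex3 := by
      obtain ⟨g, -, hg, -⟩ := exists_rk3 h
      exact ⟨g, hg⟩
    fill := fill F ev h
    inj := fun g hg x hx y hxy => (sep_of_rk3 h hg hx fun k => (hxy k).symm).symm
    j3 := hJ F ev h }

end T1

end TightRP
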