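import Pool.Agent.Lib.MP_7cdc3e_gt.C.T1.Ifc
import Pool.Agent.Lib.MP_7cdc3e_gt.C.J3.All

/-!
# MP_7cdc3e_gt, C/T1: T1 complete (no hypotheses)
-/

set_option autoImplicit false

namespace TightRP

namespace T1

theorem tf : C3.TFStmt := okTF C3.okJ3

end T1

end TightRP
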