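import Pool.Agent.Lib.MP_7cdc3e_gt.C.T1.Typ

/-!
# MP_7cdc3e_gt, C/T1: joint continuity, closedness of the type conditions (T1.2 (e))
-/

set_option autoImplicit false

open HoloConj Pool.Agent.Lib.SingHom Module AS AS.R3

namespace TightRP

namespace T1

open C3 (CSys W up pj Sp Cn Zr)

variable {F : Type} [Field F] {ev : W →ₗ[ℝ] (RP3 → ℝ)}

theorem ev_sum (ev : W →ₗ[ℝ] (RP3 → ℝ)) (g : W) (z : RP3) :
    ev g z = ∑ i, g i * ev (EuclideanSpace.single i 1) z := by
  have h1 : g = ∑ i, g i • (EuclideanSpace.single i 1 : W) := by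
    ext j
    simp [Pi.single_apply]
  conv_lhs => rw [h1]
  rw [map_sum]
  simp only [map_smul, Finset.sum_apply, Pi.smul_apply, smul_eq_mul]

/-- joint continuity -/
theorem cont_ev (h : CSys F ev) : Continuous fun q : W × RP3 => ev q.1 q.2 := by
  have h1 : (fun q : W × RP3 => ev q.1 q.2) =
      fun q : W × RP3 => ∑ i, q.1 i * ev (EuclideanSpace.single i 1) q.2 := by
    funext q
    exact ev_sum ev q.1 q.2
  rw [h1]
  refine continuous_finsetSum _ fun i _ => ?_
  refine Continuous.mul ?_ ((h.cont _).comp continuous_snd)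
  fun_prop

theorem closed_cn (h : CSys F ev) : IsClosed (Cn ev) := by
  have h1 : Cn ev = ⋂ x : RP3, {g | 0 ≤ ev g x} := by
    ext g
    simp [Cn]
  rw [h1]
  refine isClosed_iInter fun x => ?_
  have h2 : Continuous fun g : W => ev g x :=
    (cont_ev h).comp (Continuous.prodMk continuous_id continuous_const)
  exact isClosed_le continuous_const h2

/-- the zero sets depend upper semicontinuously on the function -/
theorem zr_usc (h : CSys F ev) (g : W) {O : Set RP3} (hO : IsOpen O) (hg : Zr ev g ⊆ O) :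
    {k : W | Zr ev k ⊆ O} ∈ nhds g := by
  have := C3.cptRP3
  have h1 : IsClosed {q : W × RP3 | q.2 ∈ Oᶜ ∧ ev q.1 q.2 = 0} :=
    (hO.isClosed_compl.preimage continuous_snd).inter (isClosed_eq (cont_ev h) continuous_const)
  have h2 := isClosedMap_fst_of_compactSpace _ h1
  have h3 : g ∈ (Prod.fst '' {q : W × RP3 | q.2 ∈ Oᶜ ∧ ev q.1 q.2 = 0})ᶜ := by
    rintro ⟨⟨g', z⟩, ⟨hz, h4⟩, rfl⟩
    exact hz (hg h4)
  filter_upwards [h2.isOpen_compl.mem_nhds h3] with k hk z hz
  by_contra hzO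
  exact hk ⟨⟨k, z⟩, ⟨hzO, hz⟩, rfl⟩

/-- if `a^k = 0` on the closed set `A` then also on a neighbourhood of `A` -/
theorem au_zero_nbhd {k : ℕ} {A : Set RP3} (hA : IsClosed A) (h0 : au k A = 0) :
    ∃ O : Set RP3, IsOpen O ∧ A ⊆ O ∧ ∀ B ⊆ O, au k B = 0 := by
  have hS : up A ⊆ up Set.univ := C3.up_mono (Set.subset_univ A)
  obtain ⟨ρ, hρ, h1⟩ := okT1 E4 (Pm E4) ∅ (up A) (up Set.univ) k hS (au k Set.univ)
    (OkD.empty _) (C3.up_ok hA) (C3.up_ok isClosed_univ) (by
      rw [← h0]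
      exact res_au k (Set.subset_univ A))
  refine ⟨{z | ∃ x ∈ Sp, x ∈ Metric.thickening ρ (up A) ∧ pj x = z},
    isOpen_image Metric.isOpen_thickening, fun z hz => ?_, fun B hB => ?_⟩
  · obtain ⟨x, hx, rfl⟩ := C3.pj_surj z
    exact ⟨x, hx, Metric.self_subset_thickening hρ _ ⟨hx, hz⟩, rfl⟩
  · have h2 := h1 (up B) (C3.up_mono (Set.subset_univ B)) (by
      intro y hy
      obtain ⟨x, hx, hxt, hxy⟩ := hB hy.2
      rw [Metric.mem_thickening_iff] at hxt
      obtain ⟨b, hb, hxb⟩ := hxt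
      rcases (C3.pj_eq_iff hx hy.1).1 hxy with h2 | h2
      · exact ⟨b, hb, h2 ▸ hxb⟩
      · refine ⟨-b, C3.neg_mem_up hb, ?_⟩
        rw [h2] at hxb
        rw [← dist_neg_neg, neg_neg]
        exact hxb)
    rw [← res_au k (Set.subset_univ B)]
    exact h2

/-- (e): the condition `a^k ≠ 0` on the zero set is closed -/
theorem closed_type (h : CSys F ev) (k : ℕ) : IsClosed {g : W | g ∈ Cn ev ∧ au k (Zr ev g) ≠ 0} := by
  rw [← isOpen_compl_iff, isOpen_iff_mem_nhds]
  intro g hg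
  by_cases hgC : g ∈ Cn ev
  · have h0 : au k (Zr ev g) = 0 := by
      by_contra h1
      exact hg ⟨hgC, h1⟩
    obtain ⟨O, hO, hAO, hB⟩ := au_zero_nbhd (closed_zr h g) h0
    filter_upwards [zr_usc h g hO hAO] with k' hk' h2
    exact h2.2 (hB _ hk')
  · filter_upwards [(closed_cn h).isOpen_compl.mem_nhds hgC] with k' hk' h2
    exact hk' h2.1

/-- even zero sets form an open condition: if `Zr g` is even then `Zr g'` is even for `g'` near `g` -/
theorem even_near (h : CSys F ev) {g : W} (hE : C3.Even (Zr ev g)) :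
    {k : W | C3.Even (Zr ev k)} ∈ nhds g := by
  obtain ⟨O, hO, hAO, hE'⟩ := even_nbhd (closed_zr h g) hE
  filter_upwards [zr_usc h g hO hAO] with k hk
  exact hE'.mono hk

end T1

end TightRP
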