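import Pool.Agent.Lib.MP_7cdc3e_gt.C.T1.Clo

/-!
# MP_7cdc3e_gt, C/T1: faces of the cone of nonnegative functions

A face is the intersection of the cone with its span; it is closed, and it has relative interior points.
-/

set_option autoImplicit false

open HoloConj Pool.Agent.Lib.SingHom Module AS AS.R3

namespace TightRP

namespace T1

open C3 (CSys W up pj Sp Cn Zr IsFace RI Fc Nf Xz dm)

variable {F : Type} [Field F] {ev : W →ₗ[ℝ] (RP3 → ℝ)}

theorem ev_add' (g h : W) (x : RP3) : ev (g + h) x = ev g x + ev h x := by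
  rw [map_add]
  rfl

theorem ev_smul' (t : ℝ) (g : W) (x : RP3) : ev (t • g) x = t * ev g x := by
  rw [map_smul]
  rfl

theorem ev_sub' (g h : W) (x : RP3) : ev (g - h) x = ev g x - ev h x := by
  rw [map_sub]
  rfl

theorem isFace_Cn : IsFace ev (Cn ev) where
  sub := Set.Subset.refl _
  zero := fun x => by rw [map_zero]; exact le_rfl
  add := fun g hg h hh x => by
    rw [ev_add']
    exact add_nonneg (hg x) (hh x)
  smul := fun t ht g hg x => by
    rw [ev_smul']
    exact mul_nonneg ht (hg x)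
  ext := fun _ hg _ _ _ => hg

theorem isFace_inter_Nf {Φ : Set W} (h : IsFace ev Φ) (z : RP3) : IsFace ev (Φ ∩ Nf ev z) where
  sub := fun _ hg => h.sub hg.1
  zero := ⟨h.zero, isFace_Cn.zero, by rw [map_zero]; rfl⟩
  add := fun g hg k hk => ⟨h.add g hg.1 k hk.1, isFace_Cn.add g hg.2.1 k hk.2.1, by
    rw [ev_add', hg.2.2, hk.2.2, add_zero]⟩
  smul := fun t ht g hg => ⟨h.smul t ht g hg.1, isFace_Cn.smul t ht g hg.2.1, by
    rw [ev_smul', hg.2.2, mul_zero]⟩
  ext := fun g hg k hk hgk => ⟨h.ext g hg k hk hgk.1, hg, by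
    have h1 := hgk.2.2
    rw [ev_add'] at h1
    have h2 := hg z
    have h3 := hk z
    linarith⟩

theorem isFace_Nf' (z : RP3) : IsFace ev (Nf ev z) := by
  have h1 := isFace_inter_Nf (ev := ev) isFace_Cn z
  have h2 : Cn ev ∩ Nf ev z = Nf ev z := Set.inter_eq_right.2 fun g hg => hg.1
  rw [h2] at h1
  exact h1

/-- elements of the span of a face are differences -/
theorem mem_span_iff {Φ : Set W} (h : IsFace ev Φ) {g : W} (hg : g ∈ Submodule.span ℝ Φ) :
    ∃ a ∈ Φ, ∃ b ∈ Φ, g = a - b := by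
  induction hg using Submodule.span_induction with
  | mem x hx => exact ⟨x, hx, 0, h.zero, (sub_zero x).symm⟩
  | zero => exact ⟨0, h.zero, 0, h.zero, (sub_zero 0).symm⟩
  | add x y _ _ hx hy =>
    obtain ⟨a, ha, b, hb, rfl⟩ := hx
    obtain ⟨c, hc, d, hd, rfl⟩ := hy
    exact ⟨a + c, h.add a ha c hc, b + d, h.add b hb d hd, by abel⟩
  | smul t x _ hx =>
    obtain ⟨a, ha, b, hb, rfl⟩ := hx
    rcases le_total 0 t with ht | ht
    · exact ⟨t • a, h.smul t ht a ha, t • b, h.smul t ht b hb, smul_sub t a b⟩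
    · refine ⟨(-t) • b, h.smul (-t) (by linarith) b hb, (-t) • a,
        h.smul (-t) (by linarith) a ha, ?_⟩
      rw [neg_smul, neg_smul, smul_sub]
      abel

theorem face_eq {Φ : Set W} (h : IsFace ev Φ) : Φ = Cn ev ∩ (Submodule.span ℝ Φ : Set W) := by
  apply Set.Subset.antisymm
  · exact fun g hg => ⟨h.sub hg, Submodule.subset_span hg⟩
  · rintro g ⟨hg, hg'⟩
    obtain ⟨a, ha, b, hb, hab⟩ := mem_span_iff h hg'
    refine h.ext g hg b (h.sub hb) ?_
    have : g + b = a := by
      rw [hab]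
      abel
    rw [this]
    exact ha

theorem face_closed (hs : CSys F ev) {Φ : Set W} (h : IsFace ev Φ) : IsClosed Φ := by
  rw [face_eq h]
  exact (closed_cn hs).inter (Submodule.closed_of_finiteDimensional _)

/-- faces have relative interior points -/
theorem exists_ri {Φ : Set W} (h : IsFace ev Φ) : ∃ g, RI Φ g := by
  obtain ⟨b, hb, hspan⟩ := (Submodule.fg_span_iff_fg_span_finset_subset (R := ℝ) Φ).1
    (IsNoetherian.noetherian _)
  have hsum : ∀ s : Finset W, s ⊆ b → ∑ v ∈ s, v ∈ Φ := by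
    intro s
    induction s using Finset.induction_on with
    | empty => exact fun _ => by rw [Finset.sum_empty]; exact h.zero
    | insert a s ha ih =>
      intro hs
      rw [Finset.sum_insert ha]
      exact h.add _ (hb (hs (Finset.mem_insert_self a s))) _
        (ih fun v hv => hs (Finset.mem_insert_of_mem hv))
  set g := ∑ v ∈ b, v with hg
  have hgΦ : g ∈ Φ := hsum b (Finset.Subset.refl b)
  have hadd : ∀ x y : W, (∃ t : ℝ, 0 < t ∧ g - t • x ∈ Φ) → (∃ t : ℝ, 0 < t ∧ g - t • y ∈ Φ) →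
      ∃ t : ℝ, 0 < t ∧ g - t • (x + y) ∈ Φ := by
    rintro x y ⟨t, ht, hx⟩ ⟨s, hs, hy⟩
    refine ⟨t * s / (t + s), by positivity, ?_⟩
    have h1 := h.add _ (h.smul (s / (t + s)) (by positivity) _ hx) _
      (h.smul (t / (t + s)) (by positivity) _ hy)
    have h0 : t + s ≠ 0 := by positivity
    have h2 : (s / (t + s)) • (g - t • x) + (t / (t + s)) • (g - s • y) =
        g - (t * s / (t + s)) • (x + y) := by
      have e1 : (s / (t + s)) • g + (t / (t + s)) • g = g := by
        rw [← add_smul, ← add_div, add_comm s t, div_self h0, one_smul]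
      have e2 : (s / (t + s)) • t • x = (t * s / (t + s)) • x := by
        rw [smul_smul]
        congr 1
        ring
      have e3 : (t / (t + s)) • s • y = (t * s / (t + s)) • y := by
        rw [smul_smul]
        congr 1
        ring
      rw [smul_sub, smul_sub, e2, e3, smul_add]
      calc (s / (t + s)) • g - (t * s / (t + s)) • x + ((t / (t + s)) • g - (t * s / (t + s)) • y)
          = ((s / (t + s)) • g + (t / (t + s)) • g) -
            ((t * s / (t + s)) • x + (t * s / (t + s)) • y) := by abel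
        _ = _ := by rw [e1]
    rw [h2] at h1
    exact h1
  have hsm : ∀ (c : ℝ) (x : W), 0 ≤ c → (∃ t : ℝ, 0 < t ∧ g - t • x ∈ Φ) →
      ∃ t : ℝ, 0 < t ∧ g - t • (c • x) ∈ Φ := by
    rintro c x hc ⟨t, ht, hx⟩
    rcases hc.eq_or_lt with h0 | h0
    · refine ⟨1, one_pos, ?_⟩
      rw [← h0, zero_smul, smul_zero, sub_zero]
      exact hgΦ
    · refine ⟨t / c, by positivity, ?_⟩
      rw [smul_smul, div_mul_cancel₀ t h0.ne']
      exact hx
  have hall : ∀ x ∈ Submodule.span ℝ (b : Set W), (∃ t : ℝ, 0 < t ∧ g - t • x ∈ Φ) ∧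
      ∃ t : ℝ, 0 < t ∧ g - t • (-x) ∈ Φ := by
    intro x hx
    induction hx using Submodule.span_induction with
    | mem x hx =>
      constructor
      · refine ⟨1, one_pos, ?_⟩
        have h1 : g - (1 : ℝ) • x = ∑ v ∈ b.erase x, v := by
          rw [one_smul, hg, ← Finset.add_sum_erase b (fun v => v) hx]
          exact add_sub_cancel_left x _
        rw [h1]
        exact hsum _ (Finset.erase_subset x b)
      · refine ⟨1, one_pos, ?_⟩
        rw [one_smul, sub_neg_eq_add]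
        exact h.add g hgΦ x (hb hx)
    | zero =>
      rw [neg_zero]
      have h1 : ∃ t : ℝ, 0 < t ∧ g - t • (0 : W) ∈ Φ :=
        ⟨1, one_pos, by rw [smul_zero, sub_zero]; exact hgΦ⟩
      exact ⟨h1, h1⟩
    | add x y _ _ hx hy =>
      refine ⟨hadd x y hx.1 hy.1, ?_⟩
      rw [neg_add]
      exact hadd _ _ hx.2 hy.2
    | smul c x _ hx =>
      rcases le_total 0 c with hc | hc
      · refine ⟨hsm c x hc hx.1, ?_⟩
        rw [← smul_neg]
        exact hsm c _ hc hx.2
      · have hc' : 0 ≤ -c := by linarith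
        constructor
        · have h1 := hsm (-c) _ hc' hx.2
          rw [neg_smul, smul_neg, neg_neg] at h1
          exact h1
        · have h1 := hsm (-c) _ hc' hx.1
          rw [neg_smul] at h1
          exact h1
  refine ⟨g, hgΦ, fun k hk => ?_⟩
  exact (hall k (by rw [← hspan]; exact Submodule.subset_span hk)).1

/-- a relative interior point is in no smaller face -/
theorem subset_of_ri {Φ Ψ : Set W} (hΦ : IsFace ev Φ) (hΨ : IsFace ev Ψ) {g : W}
    (hg : RI Φ g) (hgΨ : g ∈ Ψ) : Φ ⊆ Ψ := by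
  intro k hk
  obtain ⟨t, ht, h1⟩ := hg.2 k hk
  have h2 : t • k ∈ Ψ := by
    refine hΨ.ext (t • k) (hΦ.sub (hΦ.smul t ht.le k hk)) (g - t • k) (hΦ.sub h1) ?_
    rw [add_sub_cancel]
    exact hgΨ
  have h3 := hΨ.smul t⁻¹ (inv_nonneg.2 ht.le) _ h2
  rw [smul_smul, inv_mul_cancel₀ ht.ne', one_smul] at h3
  exact h3

theorem dm_lt {Φ Ψ : Set W} (hΦ : IsFace ev Φ) (hΨ : IsFace ev Ψ) (h : Ψ ⊆ Φ) (hne : Ψ ≠ Φ) :
    dm Ψ < dm Φ ∧ ∀ g, RI Φ g → g ∉ Ψ := by
  constructor
  · refine Submodule.finrank_lt_finrank_of_lt (lt_of_le_of_ne (Submodule.span_mono h) fun h1 => ?_)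
    apply hne
    rw [face_eq hΨ, face_eq hΦ, h1]
  · intro g hg hgΨ
    exact hne (Set.Subset.antisymm h (subset_of_ri hΦ hΨ hg hgΨ))

/-- the face generated by a nonnegative function -/
theorem fc_face {g : W} (hg : g ∈ Cn ev) : IsFace ev (Fc ev g) ∧ RI (Fc ev g) g ∧
    ∀ Φ, IsFace ev Φ → g ∈ Φ → Fc ev g ⊆ Φ := by
  have hC := isFace_Cn (ev := ev)
  refine ⟨?_, ?_, ?_⟩
  · refine ⟨fun k hk => hk.1, ⟨hC.zero, 1, one_pos, by rw [smul_zero, sub_zero]; exact hg⟩, ?_, ?_, ?_⟩
    · rintro k ⟨hk, t, ht, hk1⟩ l ⟨hl, s, hs, hl1⟩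
      refine ⟨hC.add k hk l hl, t * s / (t + s), by positivity, fun x => ?_⟩
      have h1 := hk1 x
      have h2 := hl1 x
      rw [ev_sub', ev_smul'] at h1 h2
      rw [ev_sub', ev_smul', ev_add']
      have h0 : 0 < t + s := by positivity
      rw [div_mul_eq_mul_div, sub_nonneg, div_le_iff₀ h0]
      nlinarith
    · rintro c hc k ⟨hk, t, ht, hk1⟩
      refine ⟨hC.smul c hc k hk, ?_⟩
      rcases hc.eq_or_lt with h0 | h0
      · refine ⟨1, one_pos, ?_⟩
        rw [← h0, zero_smul, smul_zero, sub_zero]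
        exact hg
      · refine ⟨t / c, by positivity, ?_⟩
        rw [smul_smul, div_mul_cancel₀ t h0.ne']
        exact hk1
    · rintro k hk l hl ⟨-, t, ht, h1⟩
      refine ⟨hk, t, ht, fun x => ?_⟩
      have h2 := h1 x
      have h3 := hl x
      rw [ev_sub', ev_smul', ev_add'] at h2
      rw [ev_sub', ev_smul']
      nlinarith [mul_nonneg ht.le h3]
  · refine ⟨⟨hg, 1, one_pos, by rw [one_smul, sub_self]; exact hC.zero⟩, ?_⟩
    rintro k ⟨hk, t, ht, h1⟩
    refine ⟨t, ht, h1, 1, one_pos, ?_⟩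
    rw [one_smul, sub_sub_cancel]
    exact hC.smul t ht.le k hk
  · rintro Φ hΦ hgΦ k ⟨hk, t, ht, h1⟩
    have h2 : t • k ∈ Φ := by
      refine hΦ.ext (t • k) (hC.smul t ht.le k hk) (g - t • k) h1 ?_
      rw [add_sub_cancel]
      exact hgΦ
    have h3 := hΦ.smul t⁻¹ (inv_nonneg.2 ht.le) _ h2
    rw [smul_smul, inv_mul_cancel₀ ht.ne', one_smul] at h3
    exact h3

end T1

end TightRP
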