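import Pool.Agent.Lib.MP_7cdc3e_gt.T0.All

/-!
# MP_7cdc3e_gt, C/T1: the dictionary even / odd

* `not_even_of_pre` (D2), `even_or_pre` (D3), `even_nbhd`, `even_nbhd_zr` (D4), `even_pos_iff` (D5).
-/

set_option autoImplicit false

open HoloConj Pool.Agent.Lib.SingHom Module AS AS.R3

namespace TightRP

namespace T1

open C3 (CSys W up pj Sp Cn Zr)

theorem even_empty : C3.Even (∅ : Set RP3) :=
  ⟨∅, isOpen_empty, fun x hx => by
    rw [C3.up_empty] at hx
    exact hx.elim⟩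

/-- a set whose preimage contains a connected set with two antipodal points is not even -/
theorem not_even_of_pre {V : Set RP3} {Q : Set E4} (hQ : IsPreconnected Q) (hs : Q ⊆ up V) {x : E4}
    (hx : x ∈ Q) (hx' : -x ∈ Q) : ¬ C3.Even V := by
  rintro ⟨U, hU, h⟩
  have hU' : IsOpen {y : E4 | -y ∈ U} := hU.preimage continuous_neg
  have h1 : Q ⊆ U ∪ {y | -y ∈ U} := by
    intro y hy
    by_cases hyU : y ∈ U
    · exact Or.inl hyU
    · right
      by_contra h2
      exact hyU ((h y (hs hy)).2 h2)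
  have h2 : ∀ y ∈ Q, y ∈ U → -y ∈ U → False := fun y hy h3 h4 => (h y (hs hy)).1 h3 h4
  have h3 : (Q ∩ U).Nonempty ∧ (Q ∩ {y | -y ∈ U}).Nonempty := by
    rcases h1 hx with h4 | h4
    · refine ⟨⟨x, hx, h4⟩, ⟨-x, hx', ?_⟩⟩
      show -(-x) ∈ U
      rw [neg_neg]
      exact h4
    · exact ⟨⟨-x, hx', h4⟩, ⟨x, hx, h4⟩⟩
  obtain ⟨y, hy, hy1, hy2⟩ := hQ U {y | -y ∈ U} hU hU' h1 h3.1 h3.2
  exact h2 y hy hy1 hy2

/-- an open connected nonempty set is either even or has a connected preimage -/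
theorem even_or_pre {V : Set RP3} (hV : IsOpen V) (hn : V.Nonempty) (hp : IsPreconnected V) :
    (C3.Even V ∧ ¬ IsPreconnected (up V)) ∨ (¬ C3.Even V ∧ IsPreconnected (up V)) := by
  have h1 : IsPreconnected (up V) → ¬ C3.Even V := by
    intro h2
    obtain ⟨z, hz⟩ := hn
    obtain ⟨x, hx, rfl⟩ := C3.pj_surj z
    exact not_even_of_pre h2 le_rfl ⟨hx, hz⟩ (C3.neg_mem_up ⟨hx, hz⟩)
  rcases T0.oxDic V hV hp with h | h
  · exact Or.inl ⟨h, fun h2 => h1 h2 h⟩
  · exact Or.inr ⟨h1 h, h⟩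

/-- the image in projective space of an open set is open -/
theorem isOpen_image {N : Set E4} (hN : IsOpen N) : IsOpen {z : RP3 | ∃ x ∈ Sp, x ∈ N ∧ pj x = z} := by
  have h1 : IsOpen (Q.mk ⁻¹' {z : RP3 | ∃ x ∈ Sp, x ∈ N ∧ pj x = z}) := by
    have h2 : Q.mk ⁻¹' {z : RP3 | ∃ x ∈ Sp, x ∈ N ∧ pj x = z} =
        {x : Q.S3 | (x : E4) ∈ N} ∪ {x : Q.S3 | -(x : E4) ∈ N} := by
      ext y
      constructor
      · rintro ⟨x, hx, hxN, h3⟩
        have h4 : pj x = pj (y : E4) := by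
          rw [h3, C3.pj_mk y.2]
          rfl
        rcases (C3.pj_eq_iff hx y.2).1 h4 with h5 | h5
        · left
          show (y : E4) ∈ N
          rw [← h5]
          exact hxN
        · right
          show -(y : E4) ∈ N
          rw [← h5]
          exact hxN
      · rintro (h3 | h3)
        · exact ⟨y, y.2, h3, C3.pj_mk y.2⟩
        · refine ⟨-(y : E4), C3.neg_mem_Sp y.2, h3, ?_⟩
          rw [C3.pj_neg y.2, C3.pj_mk y.2]
          rfl
    rw [h2]
    exact (hN.preimage continuous_subtype_val).union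
      (hN.preimage (continuous_neg.comp continuous_subtype_val))
  exact h1

/-- a closed even set has an open even neighbourhood -/
theorem even_nbhd {A : Set RP3} (hA : IsClosed A) (hE : C3.Even A) :
    ∃ O : Set RP3, IsOpen O ∧ A ⊆ O ∧ C3.Even O := by
  obtain ⟨U, hU, h⟩ := hE
  set B : Set E4 := up A ∩ {x | -x ∈ U}ᶜ with hB
  set B' : Set E4 := up A ∩ Uᶜ with hB'
  have hBc : IsCompact B := (C3.up_compact hA).inter_right
    (hU.preimage continuous_neg).isClosed_compl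
  have hBc' : IsClosed B' := (C3.up_closed hA).inter hU.isClosed_compl
  have hd : Disjoint B B' := by
    rw [Set.disjoint_left]
    rintro x ⟨hx, h1⟩ ⟨_, h2⟩
    exact h2 ((h x hx).2 h1)
  obtain ⟨δ, hδ, hdis⟩ := hd.exists_thickenings hBc hBc'
  have hneg : ∀ x : E4, x ∈ Metric.thickening δ B → -x ∈ Metric.thickening δ B' := by
    intro x hx
    rw [Metric.mem_thickening_iff] at hx ⊢
    obtain ⟨y, ⟨hy, hy1⟩, hxy⟩ := hx
    refine ⟨-y, ⟨C3.neg_mem_up hy, fun h1 => hy1 h1⟩, ?_⟩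
    rw [dist_neg_neg]
    exact hxy
  refine ⟨{z | ∃ x ∈ Sp, x ∈ Metric.thickening δ B ∧ pj x = z},
    isOpen_image Metric.isOpen_thickening, fun z hz => ?_,
    ⟨Metric.thickening δ B, Metric.isOpen_thickening, ?_⟩⟩
  · obtain ⟨x, hx, rfl⟩ := C3.pj_surj z
    by_cases hxU : -x ∈ U
    · have hx' : -x ∈ up A := C3.neg_mem_up ⟨hx, hz⟩
      refine ⟨-x, hx'.1, Metric.self_subset_thickening hδ B ⟨hx', ?_⟩, C3.pj_neg hx⟩
      show ¬ (-(-x) ∈ U)
      exact (h (-x) hx').1 hxU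
    · exact ⟨x, hx, Metric.self_subset_thickening hδ B ⟨⟨hx, hz⟩, hxU⟩, rfl⟩
  · rintro x ⟨hx, y, hy, hyB, hyx⟩
    constructor
    · intro h1 h2
      have h3 := hneg _ h2
      rw [neg_neg] at h3
      exact Set.disjoint_left.1 hdis h1 h3
    · intro h1
      rcases (C3.pj_eq_iff hy hx).1 hyx with h2 | h2
      · rw [← h2]
        exact hyB
      · rw [h2] at hyB
        exact (h1 hyB).elim

/-- sublevel sets of a nonnegative continuous function near its zero set -/
theorem sublevel {u : RP3 → ℝ} (hu : Continuous u) (h0 : ∀ x, 0 ≤ u x) {O : Set RP3}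
    (hO : IsOpen O) (h : {x | u x = 0} ⊆ O) : ∃ c > 0, {x | u x ≤ c} ⊆ O := by
  have := C3.cptRP3
  by_cases hne : (Oᶜ).Nonempty
  · obtain ⟨x₀, hx₀, hmin⟩ := hO.isClosed_compl.isCompact.exists_isMinOn hne hu.continuousOn
    have h1 : 0 < u x₀ := by
      rcases (h0 x₀).lt_or_eq with h2 | h2
      · exact h2
      · exact (hx₀ (h h2.symm)).elim
    refine ⟨u x₀ / 2, half_pos h1, fun x hx => ?_⟩
    by_contra hxO
    have h2 : u x₀ ≤ u x := hmin hxO
    have h3 : u x ≤ u x₀ / 2 := hx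
    linarith
  · refine ⟨1, one_pos, fun x _ => ?_⟩
    by_contra hxO
    exact hne ⟨x, hxO⟩

section sys

variable {F : Type} [Field F] {ev : W →ₗ[ℝ] (RP3 → ℝ)}

/-- a function with an even zero set: small sublevel sets are even -/
theorem even_nbhd_zr (h : CSys F ev) {g : W} (hg : g ∈ Cn ev) (hE : C3.Even (Zr ev g)) :
    ∃ c > 0, C3.Even {x | ev g x ≤ c} := by
  have hc : IsClosed (Zr ev g) := isClosed_eq (h.cont g) continuous_const
  obtain ⟨O, hO, hAO, hE'⟩ := even_nbhd hc hE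
  obtain ⟨c, hc, h1⟩ := sublevel (h.cont g) hg hO hAO
  exact ⟨c, hc, hE'.mono h1⟩

theorem locpath_S3 : LocallyPathConnectedSpace Q.S3 := by
  have : Fact (finrank ℝ (EuclideanSpace ℝ (Fin 4)) = 3 + 1) := ⟨by simp⟩
  exact ChartedSpace.locallyPathConnectedSpace (EuclideanSpace ℝ (Fin 3)) Q.S3

/-- an open set whose preimage is connected: a point and its antipode are joined in the preimage -/
theorem joined_of_pre {V : Set RP3} (hV : IsOpen V) (hp : IsPreconnected (up V)) (x y : Q.S3)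
    (hx : (x : E4) ∈ up V) (hy : (y : E4) ∈ up V) :
    JoinedIn {z : Q.S3 | Q.mk z ∈ V} x y := by
  have := locpath_S3
  have h1 : IsOpen {z : Q.S3 | Q.mk z ∈ V} := hV.preimage Q.mkC.continuous
  have h2 : (Subtype.val '' {z : Q.S3 | Q.mk z ∈ V}) = up V := by
    rw [T0.up_eq]
    ext w
    constructor
    · rintro ⟨z, hz, rfl⟩
      exact ⟨z.2, hz⟩
    · rintro ⟨hw, h3⟩
      exact ⟨⟨w, hw⟩, h3, rfl⟩
  have h3 : IsPreconnected {z : Q.S3 | Q.mk z ∈ V} := by
    rw [← h2] at hp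
    exact Topology.IsInducing.subtypeVal.isPreconnected_image.1 hp
  have hx' : x ∈ {z : Q.S3 | Q.mk z ∈ V} := by
    rw [T0.up_eq] at hx
    exact hx.2
  have hy' : y ∈ {z : Q.S3 | Q.mk z ∈ V} := by
    rw [T0.up_eq] at hy
    exact hy.2
  have h4 : IsConnected {z : Q.S3 | Q.mk z ∈ V} := ⟨⟨x, hx'⟩, h3⟩
  exact ((h1.isConnected_iff_isPathConnected).1 h4).joinedIn x hx' y hy'

/-- `{g > 0}` is even if all the sets `{g ≥ c}`, `c > 0`, are even -/
theorem even_pos_iff (h : CSys F ev) (g : W) :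
    C3.Even {x | 0 < ev g x} ↔ ∀ c > 0, C3.Even {x | c ≤ ev g x} := by
  constructor
  · intro h1 c hc
    exact h1.mono fun x hx => lt_of_lt_of_le hc hx
  · intro h1
    set V : Set RP3 := {x | 0 < ev g x} with hVd
    have hV : IsOpen V := isOpen_lt continuous_const (h.cont g)
    by_cases hn : V.Nonempty
    · rcases even_or_pre hV hn (T0.oxPre F ev h g) with h2 | h2
      · exact h2.1
      · exfalso
        obtain ⟨z, hz⟩ := hn
        obtain ⟨x, hx, rfl⟩ := C3.pj_surj z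
        have hxV : x ∈ up V := ⟨hx, hz⟩
        have hj := joined_of_pre hV h2.2 ⟨x, hx⟩ ⟨-x, C3.neg_mem_Sp hx⟩ hxV (C3.neg_mem_up hxV)
        obtain ⟨γ, hγ⟩ := hj
        have hc : Continuous fun t => ev g (Q.mk (γ t)) :=
          (h.cont g).comp (Q.mkC.continuous.comp γ.continuous)
        obtain ⟨t₀, -, hmin⟩ := isCompact_univ.exists_isMinOn (⟨0, trivial⟩ :
          (Set.univ : Set unitInterval).Nonempty) hc.continuousOn
        have h3 : 0 < ev g (Q.mk (γ t₀)) := hγ t₀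
        refine not_even_of_pre (Q := Set.range fun t => ((γ t : Q.S3) : E4)) (x := x) ?_ ?_ ?_ ?_
          (h1 _ h3)
        · exact isPreconnected_range (continuous_subtype_val.comp γ.continuous)
        · rintro _ ⟨t, rfl⟩
          rw [T0.up_eq]
          exact ⟨(γ t).2, hmin (Set.mem_univ t)⟩
        · exact ⟨0, by simp⟩
        · exact ⟨1, by simp⟩
    · have h2 : V = ∅ := Set.not_nonempty_iff_eq_empty.1 hn
      rw [h2]
      exact even_empty

end sys

end T1

end TightRP
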