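import Pool.Agent.Lib.MP_7cdc3e_gt.C.T1.Clo

/-!
# MP_7cdc3e_gt, C/T1: the map `f : RP³ → E⁹` of a system
-/

set_option autoImplicit false

open HoloConj Pool.Agent.Lib.SingHom Module AS AS.R3

namespace TightRP

namespace T1

open C3 (CSys W up pj Sp Cn Zr)

variable {F : Type} [Field F] {ev : W →ₗ[ℝ] (RP3 → ℝ)}

/-- the map of a system: its affine functions are the functions of the system -/
theorem exists_map (h : CSys F ev) : ∃ f : RP3 → Q.En 9, Continuous f ∧ LocInj f ∧
    Substantial f ∧ (∀ (l : Q.En 9 →ₗ[ℝ] ℝ) (c : ℝ), ∃ g : W, ∀ x, ev g x = l (f x) + c) ∧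
    ∀ g : W, ∃ (l : Q.En 9 →ₗ[ℝ] ℝ) (c : ℝ), ∀ x, ev g x = l (f x) + c := by
  obtain ⟨u, hu⟩ := h.one
  have hu0 : u ≠ 0 := by
    rintro rfl
    rw [map_zero] at hu
    obtain ⟨x⟩ : Nonempty RP3 := ⟨pj 0⟩
    have h1 : (0 : ℝ) = 1 := congrFun hu x
    exact zero_ne_one h1
  have : Fact (finrank ℝ W = 9 + 1) := ⟨by simp⟩
  let e := OrthonormalBasis.fromOrthogonalSpanSingleton (𝕜 := ℝ) 9 hu0
  let f : RP3 → Q.En 9 := fun x => WithLp.toLp 2 fun i => ev (e i : W) x
  have hfi : ∀ x i, (f x) i = ev (e i : W) x := fun _ _ => rfl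
  have hfc : Continuous f := by
    refine (PiLp.continuous_toLp 2 fun _ : Fin 9 => ℝ).comp ?_
    exact continuous_pi fun i => h.cont _
  -- functions of `f` belong to the system
  have h1 : ∀ (l : Q.En 9 →ₗ[ℝ] ℝ) (c : ℝ), ∀ x,
      ev ((∑ i, l (EuclideanSpace.single i 1) • (e i : W)) + c • u) x = l (f x) + c := by
    intro l c x
    have h2 : f x = ∑ i, ev (e i : W) x • (EuclideanSpace.single i (1 : ℝ) : Q.En 9) := by
      ext j
      rw [hfi]
      simp [Pi.single_apply]
    rw [h2, map_sum, map_add, map_sum, map_smul, hu]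
    simp only [map_smul, Pi.add_apply, Finset.sum_apply, Pi.smul_apply, smul_eq_mul, mul_one]
    congr 1
    exact Finset.sum_congr rfl fun i _ => mul_comm _ _
  -- every element of `W`
  have h2 : ∀ g : W, ∃ (a : Fin 9 → ℝ) (c : ℝ), g = (∑ i, a i • (e i : W)) + c • u := by
    intro g
    have hg : g = ((ℝ ∙ u)ᗮ.starProjection g) + ((ℝ ∙ u).starProjection g) := by
      rw [add_comm, Submodule.starProjection_add_starProjection_orthogonal]
    have hc : (ℝ ∙ u).starProjection g ∈ (ℝ ∙ u) := Submodule.starProjection_apply_mem _ g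
    obtain ⟨c, hc⟩ := Submodule.mem_span_singleton.1 hc
    have ha : (ℝ ∙ u)ᗮ.starProjection g ∈ (ℝ ∙ u)ᗮ := Submodule.starProjection_apply_mem _ g
    refine ⟨fun i => e.repr ⟨_, ha⟩ i, c, ?_⟩
    conv_lhs => rw [hg, ← hc]
    congr 1
    have h3 := e.sum_repr ⟨_, ha⟩
    have h4 := congrArg Subtype.val h3
    refine Eq.trans h4.symm ?_
    simp
  refine ⟨f, hfc, ?_, ?_, fun l c => ⟨_, h1 l c⟩, fun g => ?_⟩
  · intro x
    obtain ⟨U, hU, h3⟩ := h.loc x
    refine ⟨U, hU, fun y hy z hz hyz => h3 y hy z hz fun g => ?_⟩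
    obtain ⟨a, c, rfl⟩ := h2 g
    rw [map_add, map_sum, map_smul, hu]
    simp only [map_smul, Pi.add_apply, Finset.sum_apply, Pi.smul_apply, smul_eq_mul]
    congr 1
    refine Finset.sum_congr rfl fun i _ => ?_
    rw [← hfi, ← hfi, hyz]
  · intro l c hl
    have h3 : ev ((∑ i, l (EuclideanSpace.single i 1) • (e i : W)) + (-c) • u) = 0 := by
      funext x
      rw [h1 l (-c) x, hl x, add_neg_cancel]
      rfl
    have h4 : (∑ i, l (EuclideanSpace.single i 1) • (e i : W)) + (-c) • u = 0 := by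
      apply h.inj
      rw [h3, map_zero]
    have h5 : ∀ i, l (EuclideanSpace.single i 1) = 0 := by
      intro j
      have h6 := congrArg (fun w : W => inner ℝ (e j : W) w) h4
      simp only [inner_add_right, inner_sum, inner_smul_right, inner_zero_right] at h6
      have h7 : inner ℝ (e j : W) u = (0 : ℝ) :=
        Submodule.mem_orthogonal_singleton_iff_inner_left.1 (e j).2
      have h8 : ∀ i, inner ℝ (e j : W) (e i : W) = if i = j then (1 : ℝ) else 0 := by
        intro i
        have h9 := (orthonormal_iff_ite.1 e.orthonormal) j i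
        rw [show inner ℝ (e j : W) (e i : W) = inner ℝ (e j) (e i) from rfl, h9]
        by_cases hij : i = j
        · simp [hij]
        · rw [if_neg (fun h => hij h.symm), if_neg hij]
      rw [h7, mul_zero, add_zero] at h6
      simp only [h8, mul_ite, mul_one, mul_zero] at h6
      rw [Finset.sum_ite_eq' Finset.univ j] at h6
      simpa using h6
    apply LinearMap.ext
    intro v
    have h6 : v = ∑ i, v i • (EuclideanSpace.single i (1 : ℝ) : Q.En 9) := by
      ext j
      simp [Pi.single_apply]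
    rw [h6, map_sum]
    simp [h5]
  · obtain ⟨a, c, rfl⟩ := h2 g
    refine ⟨∑ i, a i • (LinearMap.proj i : (Fin 9 → ℝ) →ₗ[ℝ] ℝ) ∘ₗ (WithLp.linearEquiv 2 ℝ (Fin 9 → ℝ)).toLinearMap, c, fun x => ?_⟩
    rw [map_add, map_sum, map_smul, hu]
    simp only [map_smul, Pi.add_apply, Finset.sum_apply, Pi.smul_apply, smul_eq_mul, mul_one,
      LinearMap.sum_apply, LinearMap.smul_apply, LinearMap.comp_apply]
    rfl

end T1

end TightRP
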