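import Pool.Agent.Lib.MP_7cdc3e_gt.C.T1.Dic
import Pool.Agent.Lib.AS.SpecLG

/-!
# MP_7cdc3e_gt, C/T1: the types of closed half-spaces and of zero sets (T1.1, T1.2)

For a closed set `A` with `Gen (up A)`, nonempty and not everything: `acy_of_even`, `bas2`, `bas3`.
-/

set_option autoImplicit false

open HoloConj Pool.Agent.Lib.SingHom Module AS AS.R3

namespace TightRP

namespace T1

open C3 (CSys W up pj Sp Cn Zr)

/-- the class `a^k` on the preimage of `A` -/
noncomputable abbrev au (k : ℕ) (A : Set RP3) : H (Pm C3.E4) ∅ k (up A) :=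
  ap k (up A) (C3.zero_notMem_up A)

theorem ap_zero_eq_one {X : Set E4} (h0 : (0 : E4) ∉ X) : ap 0 X h0 = one (Pm E4) X := by
  unfold ap one
  rw [cl_eq_cl]
  refine Bnd_of_Z0 ((apc_iv 0).add (fun _ _ _ => rfl)) ⟨1, one_pos, fun l hl hs => ?_⟩
  obtain ⟨x, rfl⟩ := List.length_eq_one_iff.1 hl
  have hx : (0 : E4) ∉ [x] := by
    intro h
    rw [List.mem_singleton] at h
    exact h0 (h ▸ hs.1 x List.mem_cons_self)
  rw [Pi.add_apply, apc_pos (k := 0) rfl hx]
  show (1 : ZMod 2) + 1 = 0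
  decide

theorem one_ne_zero_of_nonempty {A : Set RP3} (hn : A.Nonempty) : one (Pm E4) (up A) ≠ 0 := by
  obtain ⟨z, hz⟩ := hn
  obtain ⟨x, hx, rfl⟩ := C3.pj_surj z
  exact (okN2 E4 (Pm E4) (up A)).2 ⟨x, hx, hz⟩

theorem res_au (k : ℕ) {A B : Set RP3} (h : A ⊆ B) : res (C3.up_mono h) k (au k B) = au k A :=
  res_ap k _ _ _

/-- monotonicity of the type -/
theorem au_ne_mono {k : ℕ} {A B : Set RP3} (h : A ⊆ B) (hA : au k A ≠ 0) : au k B ≠ 0 := by
  intro h1
  apply hA
  rw [← res_au k h, h1, map_zero]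

theorem au_ne_le {i j : ℕ} {A : Set RP3} (h : i ≤ j) (hA : au j A ≠ 0) : au i A ≠ 0 :=
  fun h1 => hA (T0.oxPow A i j h h1)

theorem au_one_iff {A : Set RP3} (hA : IsClosed A) : au 1 A ≠ 0 ↔ ¬ C3.Even A :=
  not_congr (T0.oxOne A hA)

section gen

variable {A : Set RP3} (hG : Gen (up A)) (hA : IsClosed A) (hn : A.Nonempty)

include hG in
theorem h0_gen (x : H (Pm E4) ∅ 0 (up A)) : x = 0 ∨ x = one (Pm E4) (up A) := by
  rcases hG (C3.zero_notMem_up A) 0 x with h | h
  · exact Or.inl h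
  · rw [ap_zero_eq_one] at h
    exact Or.inr h

include hG hA hn in
/-- even sets are acyclic -/
theorem acy_of_even (hE : C3.Even A) : Acy (Pm E4) (up A) := by
  refine ⟨h0_gen hG, one_ne_zero_of_nonempty hn, fun n x => ?_⟩
  rcases hG (C3.zero_notMem_up A) (n + 1) x with h | h
  · exact h
  · rw [h]
    exact T0.oxPow A 1 (n + 1) (by omega) ((T0.oxOne A hA).2 hE)

include hG hA hn in
/-- odd sets with `a² = 0`: basis `1, a` -/
theorem bas2 (h1 : ¬ C3.Even A) (h2 : au 2 A = 0) : Bas2 (Pm E4) (up A) 1 (au 1 A) := by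
  refine ⟨h0_gen hG, one_ne_zero_of_nonempty hn, fun x => hG _ 1 x, (au_one_iff hA).2 h1,
    fun n hn0 hn1 x => ?_⟩
  rcases hG (C3.zero_notMem_up A) n x with h | h
  · exact h
  · rw [h]
    exact T0.oxPow A 2 n (by omega) h2

include hG hA hn in
/-- sets with `a² ≠ 0`, not everything: basis `1, a, a²` -/
theorem bas3 (hu : A ≠ Set.univ) (h2 : au 2 A ≠ 0) : Bas3 (Pm E4) (up A) (au 1 A) (au 2 A) := by
  refine ⟨h0_gen hG, one_ne_zero_of_nonempty hn, fun x => hG _ 1 x, au_ne_le (by omega) h2,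
    fun x => hG _ 2 x, h2, fun n x => ?_⟩
  exact T0.oxTop A (n + 3) hA (Or.inr ⟨by omega, hu⟩) x

end gen

section sys

variable {F : Type} [Field F] {ev : W →ₗ[ℝ] (RP3 → ℝ)}

theorem closed_ge (h : CSys F ev) (g : W) : IsClosed {x | 0 ≤ ev g x} :=
  isClosed_le continuous_const (h.cont g)

theorem closed_zr (h : CSys F ev) (g : W) : IsClosed (Zr ev g) :=
  isClosed_eq (h.cont g) continuous_const

theorem zr_eq {g : W} (hg : g ∈ Cn ev) : Zr ev g = {x | 0 ≤ ev (-g) x} := by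
  ext x
  have h1 : ev (-g) x = -(ev g x) := by
    rw [map_neg]
    rfl
  show ev g x = 0 ↔ 0 ≤ ev (-g) x
  rw [h1]
  have := hg x
  constructor
  · intro h2
    rw [h2, neg_zero]
  · intro h2
    linarith

/-- zero sets of nonnegative functions have only the classes `0`, `a^k` -/
theorem gen_zr (h : CSys F ev) {g : W} (hg : g ∈ Cn ev) : Gen (up (Zr ev g)) := by
  rw [zr_eq hg]
  exact T0.oxGen F ev h (-g)

/-- superlevel sets -/
theorem gen_ge (h : CSys F ev) (g : W) (c : ℝ) : Gen (up {x | c ≤ ev g x}) := by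
  obtain ⟨u, hu⟩ := h.one
  have h1 : {x | c ≤ ev g x} = {x | 0 ≤ ev (g - c • u) x} := by
    ext x
    have h2 : ev (g - c • u) x = ev g x - c := by
      rw [map_sub, map_smul, hu]
      simp
    show c ≤ ev g x ↔ 0 ≤ ev (g - c • u) x
    rw [h2, sub_nonneg]
  rw [h1]
  exact T0.oxGen F ev h _

/-- sublevel sets -/
theorem gen_le (h : CSys F ev) (g : W) (c : ℝ) : Gen (up {x | ev g x ≤ c}) := by
  have h1 : {x | ev g x ≤ c} = {x | -c ≤ ev (-g) x} := by
    ext x
    have h2 : ev (-g) x = -(ev g x) := by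
      rw [map_neg]
      rfl
    show ev g x ≤ c ↔ -c ≤ ev (-g) x
    rw [h2, neg_le_neg_iff]
  rw [h1]
  exact gen_ge h _ _

theorem zr_ne_univ (h : CSys F ev) {g : W} (hg : g ≠ 0) : Zr ev g ≠ Set.univ := by
  intro h1
  apply hg
  apply h.inj
  rw [map_zero]
  funext x
  have h2 : x ∈ Zr ev g := by
    rw [h1]
    trivial
  exact h2

/-- the complement of the positivity set of a nonnegative function is its zero set -/
theorem compl_pos {g : W} (hg : g ∈ Cn ev) : {x | 0 < ev g x}ᶜ = Zr ev g := by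
  ext x
  show ¬ 0 < ev g x ↔ ev g x = 0
  have := hg x
  constructor
  · intro h1
    linarith
  · intro h1
    rw [h1]
    exact lt_irrefl 0

/-- (b): `a² ≠ 0` on the zero set if and only if `{g > 0}` is even -/
theorem even_pos_iff_au (h : CSys F ev) {g : W} (hg : g ∈ Cn ev) (hg0 : g ≠ 0) :
    C3.Even {x | 0 < ev g x} ↔ au 2 (Zr ev g) ≠ 0 := by
  have hV : IsOpen {x | 0 < ev g x} := isOpen_lt continuous_const (h.cont g)
  rw [← compl_pos hg]
  constructor
  · exact T0.oxEv _ hV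
  · intro h1
    by_contra h2
    apply h1
    apply T0.oxOdd _ hV ?_ (T0.oxPre F ev h g) h2
    by_contra h3
    apply zr_ne_univ h hg0
    rw [← compl_pos hg, Set.not_nonempty_iff_eq_empty.1 h3, Set.compl_empty]

theorem mem_T2set_iff (h : CSys F ev) {g : W} :
    g ∈ C3.T2set ev ↔ g ∈ Cn ev ∧ g ≠ 0 ∧ au 2 (Zr ev g) ≠ 0 := by
  constructor
  · rintro ⟨h1, h2, -, h3⟩
    exact ⟨h1, h2, (even_pos_iff_au h h1 h2).1 h3⟩
  · rintro ⟨h1, h2, h3⟩
    refine ⟨h1, h2, ?_, (even_pos_iff_au h h1 h2).2 h3⟩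
    by_contra h4
    apply h3
    apply H_empty
    rw [Set.not_nonempty_iff_eq_empty.1 h4, C3.up_empty]

/-- (c) -/
theorem zr_subset_of_le {g k : W} {t : ℝ} (ht : 0 < t)
    (hk : g - t • k ∈ Cn ev) (hk' : k ∈ Cn ev) : Zr ev g ⊆ Zr ev k := by
  intro x hx
  have h1 : 0 ≤ ev (g - t • k) x := hk x
  have h2 : ev (g - t • k) x = ev g x - t * ev k x := by
    rw [map_sub, map_smul]
    simp
  have h3 : ev g x = 0 := hx
  have h4 : 0 ≤ ev k x := hk' x
  rw [h2, h3, zero_sub] at h1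
  have h5 : t * ev k x ≤ 0 := by linarith
  show ev k x = 0
  have h6 : 0 ≤ t * ev k x := mul_nonneg ht.le h4
  have h7 : t * ev k x = 0 := le_antisymm h5 h6
  exact (mul_eq_zero.1 h7).resolve_left ht.ne'

/-- (d): the zero set of a relative interior point is the set of the common zeros -/
theorem zr_eq_xz {Φ : Set W} (hΦ : C3.IsFace ev Φ) {g : W} (hg : C3.RI Φ g) :
    Zr ev g = C3.Xz ev Φ := by
  ext x
  constructor
  · intro hx k hk
    obtain ⟨t, ht, h1⟩ := hg.2 k hk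
    exact zr_subset_of_le ht (hΦ.sub h1) (hΦ.sub hk) hx
  · intro hx
    exact hx g hg.1

theorem xz_subset_zr {Φ : Set W} {g : W} (hg : g ∈ Φ) : C3.Xz ev Φ ⊆ Zr ev g :=
  fun _ hx => hx g hg

/-- (g) superlevel sets of a function of rank one are even and acyclic -/
theorem acy_ge (h : CSys F ev) {g : W} (hg : g ∈ C3.T2set ev) {c : ℝ} (hc : 0 < c)
    (hn : ∃ x, c ≤ ev g x) : Acy (Pm E4) (up {x | c ≤ ev g x}) :=
  acy_of_even (gen_ge h g c) (isClosed_le continuous_const (h.cont g)) hn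
    (hg.2.2.2.mono fun _ hx => lt_of_lt_of_le hc hx)

/-- (g) sublevel sets of a function of rank one have the basis `1, a, a²` -/
theorem bas3_le (h : CSys F ev) {g : W} (hg : g ∈ C3.T2set ev) {c : ℝ} (hc : 0 ≤ c)
    (hn : ∃ x, c < ev g x) :
    Bas3 (Pm E4) (up {x | ev g x ≤ c}) (au 1 {x | ev g x ≤ c}) (au 2 {x | ev g x ≤ c}) := by
  have hcl : IsClosed {x | ev g x ≤ c} := isClosed_le (h.cont g) continuous_const
  have hne : {x | ev g x ≤ c}.Nonempty := by
    obtain ⟨x, hx⟩ := hg.2.2.1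
    refine ⟨x, ?_⟩
    have h1 : ev g x = 0 := hx
    show ev g x ≤ c
    rw [h1]
    exact hc
  refine bas3 (gen_le h g c) hcl hne ?_ ?_
  · intro h1
    obtain ⟨x, hx⟩ := hn
    have h2 : x ∈ {x | ev g x ≤ c} := by
      rw [h1]
      trivial
    exact absurd h2 (not_le.2 hx)
  · apply au_ne_mono (A := Zr ev g)
    · intro x hx
      have h1 : ev g x = 0 := hx
      show ev g x ≤ c
      rw [h1]
      exact hc
    · exact ((mem_T2set_iff h).1 hg).2.2

end sys

end T1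

end TightRP
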